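import Pool.Agent.H185.ZM.Diag

/-!
# MP_d483fb_an: lattices containing diagonal matrices of finite order

Part I: `R` is a commutative ring, `ζ ∈ R` a primitive `q`-th root of unity, `q = 2`, `q = 4` or `q` an
odd prime, and `Γ ⊂ SL_n(R)` is any subgroup which contains the diagonal matrices of determinant one
with entries powers of `ζ`; for instance the special unitary group `SU(a; R)` of a diagonal hermitian
form `∑ a_i x_i* x_i` over a ring with involution such that `ζ* ζ = 1`.  For `q = 2` and the trivial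
involution these are the groups `SO(a; R)`; over rings of integers they give arithmetic lattices,
uniform and non uniform, in `SO(p, q)`, `SO_n(ℂ)` and their products, for which
`min(d(G), v(G)) = n - 2` (`SO(p, q)`, `p + q = n`); for `q = 4` and odd primes they give lattices in
`SU(p, q)`, for which it is `2 n - 3`, and in products of groups `SL_n(ℂ)` (`2 n - 2`).

Part II: `O` is any ring, `u_i ∈ O`, `u_i ^ 2 = -1`, and `Γ ⊂ GL_n(O)` contains the diagonal matrices
with entries `u_i ^ (e_i)`; for instance the unitary group of the skew hermitian form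
`∑ x_i* a_i x_i`, `a_i* = - a_i`, over an order `O` in a quaternion algebra, `u_i` commuting with
`a_i`: lattices in `SO*(2 n)`, for which `min(d(G), v(G)) = 2 n - 1`.
-/

set_option autoImplicit false

namespace Pool.Agent.Results.MP_d483fb_an.DiagonalTorsion

open scoped Manifold ContDiff
open Pool.Agent.H185.ZM Module Matrix

variable {E : Type} [NormedAddCommGroup E] [NormedSpace ℝ E] [FiniteDimensional ℝ E]
  {M : Type} [TopologicalSpace M] [ChartedSpace E M] [IsManifold 𝓘(ℝ, E) ∞ M]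

/-- `2 ^ m` for `q = 2, 4` and `q ^ ⌊m / 2⌋` otherwise -/
def cap (q m : ℕ) : ℕ := if q = 2 ∨ q = 4 then 2 ^ m else q ^ (m / 2)

/-- `q ^ (n - 1)` does not divide `gcd(n, q) * cap(q, m) * χ` -/
def Cond (q n m : ℕ) (χ : ℤ) : Prop :=
  ¬ ((q : ℤ) ^ (n - 1) ∣ (Nat.gcd n q : ℤ) * ((cap q m : ℤ) * χ))

/-- the special unitary group of the diagonal form `∑ a_i x_i* x_i` -/
def SUG {R : Type} [CommRing R] [StarRing R] {n : ℕ} (a : Fin n → R) :
    Subgroup (Matrix.SpecialLinearGroup (Fin n) R) where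
  carrier := {g | (g : Matrix (Fin n) (Fin n) R)ᴴ * diagonal a * (g : Matrix (Fin n) (Fin n) R) =
    diagonal a}
  one_mem' := by
    show (1 : Matrix (Fin n) (Fin n) R)ᴴ * diagonal a * (1 : Matrix (Fin n) (Fin n) R) = diagonal a
    rw [conjTranspose_one, one_mul, mul_one]
  mul_mem' := by
    intro g h hg hh
    have hg' : (g : Matrix (Fin n) (Fin n) R)ᴴ * diagonal a * (g : Matrix (Fin n) (Fin n) R) =
      diagonal a := hg
    have hh' : (h : Matrix (Fin n) (Fin n) R)ᴴ * diagonal a * (h : Matrix (Fin n) (Fin n) R) =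
      diagonal a := hh
    show ((g * h : Matrix.SpecialLinearGroup (Fin n) R) : Matrix (Fin n) (Fin n) R)ᴴ * diagonal a *
      ((g * h : Matrix.SpecialLinearGroup (Fin n) R) : Matrix (Fin n) (Fin n) R) = diagonal a
    rw [Matrix.SpecialLinearGroup.coe_mul, conjTranspose_mul]
    calc _ = (h : Matrix (Fin n) (Fin n) R)ᴴ * ((g : Matrix (Fin n) (Fin n) R)ᴴ * diagonal a *
        (g : Matrix (Fin n) (Fin n) R)) * (h : Matrix (Fin n) (Fin n) R) := by
          simp only [Matrix.mul_assoc]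
      _ = diagonal a := by rw [hg', hh']
  inv_mem' := by
    intro g hg
    have hg' : (g : Matrix (Fin n) (Fin n) R)ᴴ * diagonal a * (g : Matrix (Fin n) (Fin n) R) =
      diagonal a := hg
    show ((g⁻¹ : Matrix.SpecialLinearGroup (Fin n) R) : Matrix (Fin n) (Fin n) R)ᴴ * diagonal a *
      ((g⁻¹ : Matrix.SpecialLinearGroup (Fin n) R) : Matrix (Fin n) (Fin n) R) = diagonal a
    have h1 : (g : Matrix (Fin n) (Fin n) R) *
        ((g⁻¹ : Matrix.SpecialLinearGroup (Fin n) R) : Matrix (Fin n) (Fin n) R) = 1 := by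
      rw [← Matrix.SpecialLinearGroup.coe_mul, mul_inv_cancel, Matrix.SpecialLinearGroup.coe_one]
    have h2 : ((g⁻¹ : Matrix.SpecialLinearGroup (Fin n) R) : Matrix (Fin n) (Fin n) R)ᴴ *
        (g : Matrix (Fin n) (Fin n) R)ᴴ = 1 := by
      rw [← conjTranspose_mul, h1, conjTranspose_one]
    conv_lhs => rw [← hg']
    calc _ = (((g⁻¹ : Matrix.SpecialLinearGroup (Fin n) R) : Matrix (Fin n) (Fin n) R)ᴴ *
        (g : Matrix (Fin n) (Fin n) R)ᴴ) * diagonal a * ((g : Matrix (Fin n) (Fin n) R) *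
        ((g⁻¹ : Matrix.SpecialLinearGroup (Fin n) R) : Matrix (Fin n) (Fin n) R)) := by
          simp only [Matrix.mul_assoc]
      _ = diagonal a := by rw [h1, h2, one_mul, mul_one]

/-- `Γ` contains all diagonal matrices of determinant one with entries powers of `ζ` -/
def HasDiag {R : Type} [CommRing R] {n : ℕ} (ζ : R)
    (Γ : Subgroup (Matrix.SpecialLinearGroup (Fin n) R)) : Prop :=
  ∀ g : Matrix.SpecialLinearGroup (Fin n) R,
    (∃ e : Fin n → ℕ, (g : Matrix (Fin n) (Fin n) R) = diagonal (fun i => ζ ^ e i)) → g ∈ Γ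

theorem hasDiag_SUG {R : Type} [CommRing R] [StarRing R] {n : ℕ} (a : Fin n → R) {ζ : R}
    (hs : star ζ * ζ = 1) : HasDiag ζ (SUG a) := by
  rintro g ⟨e, he⟩
  show (g : Matrix (Fin n) (Fin n) R)ᴴ * diagonal a * (g : Matrix (Fin n) (Fin n) R) = diagonal a
  rw [he, diagonal_conjTranspose, diagonal_mul_diagonal, diagonal_mul_diagonal]
  congr 1
  funext i
  show star (ζ ^ e i) * a i * ζ ^ e i = a i
  rw [star_pow, mul_comm (star ζ ^ e i) (a i), mul_assoc, ← mul_pow, hs, one_pow, mul_one]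

lemma zp_injective {R : Type} [CommRing R] {q : ℕ} [NeZero q] {ζ : R} (h : IsPrimitiveRoot ζ q) :
    Function.Injective (zp ζ h.pow_eq_one) := by
  intro x y hxy
  have h1 : ζ ^ (x.toAdd).val = ζ ^ (y.toAdd).val := hxy
  have h2 := h.pow_inj (ZMod.val_lt _) (ZMod.val_lt _) h1
  exact ZMod.val_injective q h2

/-- **Part I.** -/
theorem commutative {R : Type} [CommRing R] {n : ℕ} (hn : 3 ≤ n) {q : ℕ}
    (hq : q = 2 ∨ q = 4 ∨ (q.Prime ∧ q ≠ 2)) {ζ : R} (hζ : IsPrimitiveRoot ζ q)
    (Γ : Subgroup (Matrix.SpecialLinearGroup (Fin n) R)) (hΓ : HasDiag ζ Γ)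
    [CompactSpace M] [T2Space M] [ConnectedSpace M] (α : Γ → (M ≃ₘ^∞⟮𝓘(ℝ, E), 𝓘(ℝ, E)⟯ M))
    (hα : IsHom α) (h : Cond q n (finrank ℝ E) (Pool.Agent.Helper381.eulerChar M)) :
    (∃ (g : Γ) (e : Fin n → ℕ), (∀ x, α g x = x) ∧
      ((g : Matrix.SpecialLinearGroup (Fin n) R) : Matrix (Fin n) (Fin n) R) =
        diagonal (fun i => ζ ^ e i) ∧ ∃ i j, ζ ^ e i ≠ ζ ^ e j) ∧
    (NS Γ → (Set.range α).Finite) := by
  obtain ⟨k, rfl⟩ : ∃ k, n = k + 1 := ⟨n - 1, by omega⟩
  have hk : 2 ≤ k := by omega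
  have hq0 : NeZero q := ⟨by
    rcases hq with h | h | ⟨h, -⟩
    · omega
    · omega
    · exact h.ne_zero⟩
  set f := zp ζ hζ.pow_eq_one with hf
  have hinj : Function.Injective f := zp_injective hζ
  have hcoe : ∀ x : Fin k → Multiplicative (ZMod q),
      ((dmt k f x : Matrix.SpecialLinearGroup (Fin (k + 1)) R) :
        Matrix (Fin (k + 1)) (Fin (k + 1)) R) = diagonal (fun i => ζ ^ (uv x i).toAdd.val) :=
    fun x => rfl
  have hmem : ∀ x, dmt k f x ∈ Γ := fun x => hΓ _ ⟨_, hcoe x⟩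
  have hcard : Nat.card (Multiplicative (ZMod q)) = q := by simp
  have hex : ∃ x : Fin k → Multiplicative (ZMod q), (∃ i j, uv x i ≠ uv x j) ∧
      dG f Γ hmem x ∈ actKer hα.action := by
    have h' : ¬ ((q : ℤ) ^ k ∣ (Nat.gcd (k + 1) q : ℤ) * ((cap q (finrank ℝ E) : ℤ) *
        Pool.Agent.Helper381.eulerChar M)) := h
    by_cases h24 : q = 2 ∨ q = 4
    · unfold cap at h'
      rw [if_pos h24] at h'
      push_cast at h'
      refine ker_four (fun u => ?_) f hk Γ hmem hα.action (by rw [hcard]; exact_mod_cast h')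
      have h4 : q ∣ 4 := by
        rcases h24 with h | h
        · rw [h]; norm_num
        · rw [h]
      obtain ⟨c, hc⟩ := h4
      have h5 : u ^ q = 1 := by
        show (q : ℕ) • u.toAdd = 0
        simp
      rw [hc, pow_mul, h5, one_pow]
    · unfold cap at h'
      rw [if_neg h24] at h'
      push_cast at h'
      have hp : q.Prime ∧ q ≠ 2 := by
        rcases hq with h | h | h
        · exact absurd (Or.inl h) h24
        · exact absurd (Or.inr h) h24
        · exact h
      refine ker_odd hp.1 hp.2 (fun u => ?_) f hk Γ hmem hα.action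
        (by rw [hcard]; exact_mod_cast h')
      show (q : ℕ) • u.toAdd = 0
      simp
  refine ⟨?_, fun hNS => hα.finite_range (hNS.finite f hinj hmem hα.action hex)⟩
  obtain ⟨x, ⟨i, j, hij⟩, hx⟩ := hex
  refine ⟨dG f Γ hmem x, fun i => (uv x i).toAdd.val, hx, hcoe x, i, j, fun h1 => hij ?_⟩
  exact hinj h1

/-- the diagonal matrices with entries powers of the `u i` -/
def dia {O : Type} [Ring O] {n : ℕ} (u : Fin n → O) (e : Fin n → ℕ) : Matrix (Fin n) (Fin n) O :=
  diagonal (fun i => u i ^ e i)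

/-- powers of an element of order dividing four in a ring -/
def z4 {O : Type} [Ring O] (z : O) (hz : z ^ 4 = 1) : Multiplicative (ZMod 4) →* O where
  toFun x := z ^ (x.toAdd).val
  map_one' := by simp
  map_mul' x y := by
    have h1 : (x * y).toAdd = x.toAdd + y.toAdd := rfl
    rw [h1, ZMod.val_add, ← pow_add]
    conv_rhs => rw [← Nat.mod_add_div (x.toAdd.val + y.toAdd.val) 4, pow_add, pow_mul, hz,
      one_pow, mul_one]

/-- the homomorphism of the group of exponents to the diagonal matrices -/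
def dz {O : Type} [Ring O] {n : ℕ} (u : Fin n → O) (hu : ∀ i, u i ^ 4 = 1) :
    (Fin n → Multiplicative (ZMod 4)) →* (Matrix (Fin n) (Fin n) O)ˣ :=
  MonoidHom.toHomUnits
    { toFun := fun e => diagonal (fun i => z4 (u i) (hu i) (e i))
      map_one' := by
        simp only [Pi.one_apply, map_one]
        exact diagonal_one
      map_mul' := fun e f => by
        rw [diagonal_mul_diagonal]
        simp only [Pi.mul_apply, map_mul] }

/-- **Part II.** -/
theorem quaternionic {O : Type} [Ring O] (h2 : (2 : O) ≠ 0) {n : ℕ} (u : Fin n → O)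
    (hu : ∀ i, u i * u i = -1) (Γ : Subgroup (Matrix (Fin n) (Fin n) O)ˣ)
    (hΓ : ∀ g : (Matrix (Fin n) (Fin n) O)ˣ,
      (∃ e : Fin n → ℕ, (g : Matrix (Fin n) (Fin n) O) = dia u e) → g ∈ Γ)
    [CompactSpace M] [T2Space M] [ConnectedSpace M] (α : Γ → (M ≃ₘ^∞⟮𝓘(ℝ, E), 𝓘(ℝ, E)⟯ M))
    (hα : IsHom α)
    (h : ¬ ((4 : ℤ) ^ n ∣ 2 ^ (finrank ℝ E + 1) * Pool.Agent.Helper381.eulerChar M)) :
    (∃ (g : Γ) (e : Fin n → ℕ), (∀ x, α g x = x) ∧
      ((g : (Matrix (Fin n) (Fin n) O)ˣ) : Matrix (Fin n) (Fin n) O) = dia u e ∧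
      dia u e ≠ 1 ∧ dia u e ≠ -1) ∧
    ((∀ N : Subgroup Γ, N.Normal →
      (∀ g ∈ N, ((g : (Matrix (Fin n) (Fin n) O)ˣ) : Matrix (Fin n) (Fin n) O) = 1 ∨
        ((g : (Matrix (Fin n) (Fin n) O)ˣ) : Matrix (Fin n) (Fin n) O) = -1) ∨
      Finite (Γ ⧸ N)) → (Set.range α).Finite) := by
  classical
  have hu4 : ∀ i, u i ^ 4 = 1 := fun i => by
    have : u i ^ 4 = (u i * u i) * (u i * u i) := by noncomm_ring
    rw [this, hu i]
    simp
  have hcoe : ∀ x : Fin n → Multiplicative (ZMod 4),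
      ((dz u hu4 x : (Matrix (Fin n) (Fin n) O)ˣ) : Matrix (Fin n) (Fin n) O) =
        dia u (fun i => (x i).toAdd.val) := fun x => rfl
  have hmem : ∀ x, dz u hu4 x ∈ Γ := fun x => hΓ _ ⟨_, hcoe x⟩
  let φ : (Fin n → Multiplicative (ZMod 4)) →* Γ :=
    { toFun := fun x => ⟨dz u hu4 x, hmem x⟩
      map_one' := Subtype.ext (map_one _)
      map_mul' := fun p q => Subtype.ext (map_mul _ p q) }
  -- the powers of `u i`
  have hne : ∀ (i : Fin n) (w : Multiplicative (ZMod 4)),
      (z4 (u i) (hu4 i) w = 1 → w = 1) ∧ (z4 (u i) (hu4 i) w = -1 → w = Multiplicative.ofAdd 2) := by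
    intro i w
    have h11 : (1 : O) ≠ -1 := fun h => h2 (by
      have : (1 : O) + 1 = 0 := by nth_rewrite 2 [h]; simp
      rw [← this]; norm_num)
    have h5 : ∀ w : ZMod 4, w = 0 ∨ w = 1 ∨ w = 2 ∨ w = 3 := by decide
    have hval : z4 (u i) (hu4 i) w = u i ^ w.toAdd.val := rfl
    have hw : ∀ c : ZMod 4, w.toAdd = c → w = Multiplicative.ofAdd c := fun c hc => by
      rw [← hc]; rfl
    rcases h5 w.toAdd with h | h | h | h
    · rw [hval, h, show (0 : ZMod 4).val = 0 from rfl, pow_zero, hw _ h]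
      exact ⟨fun _ => rfl, fun h => absurd h h11⟩
    · rw [hval, h, show (1 : ZMod 4).val = 1 from rfl, pow_one]
      constructor
      · intro h6
        have := hu i
        rw [h6, mul_one] at this
        exact absurd this h11
      · intro h6
        have := hu i
        rw [h6] at this
        simp only [mul_neg, mul_one, neg_neg] at this
        exact absurd this h11
    · rw [hval, h, show (2 : ZMod 4).val = 2 from rfl, pow_two, hu i, hw _ h]
      exact ⟨fun h => absurd h.symm h11, fun _ => rfl⟩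
    · rw [hval, h, show (3 : ZMod 4).val = 3 from rfl]
      have e3 : u i ^ 3 = - u i := by
        have : u i ^ 3 = (u i * u i) * u i := by noncomm_ring
        rw [this, hu i]
        simp
      rw [e3]
      constructor
      · intro h6
        have := hu i
        rw [show u i = -1 by rw [← h6]; simp] at this
        simp only [mul_neg, mul_one, neg_neg] at this
        exact absurd this h11
      · intro h6
        have := hu i
        rw [show u i = 1 from neg_injective h6, mul_one] at this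
        exact absurd this h11
  have hex : ∃ x : Fin n → Multiplicative (ZMod 4), φ x ∈ actKer hα.action ∧
      dia u (fun i => (x i).toAdd.val) ≠ 1 ∧ dia u (fun i => (x i).toAdd.val) ≠ -1 := by
    by_contra hcon
    push Not at hcon
    apply h
    have h1 := abelian_dvd_ker (P := Fin n → Multiplicative (ZMod 4)) (fun p => by
      funext j
      have : ∀ u : Multiplicative (ZMod 4), u ^ 4 = 1 := by decide
      exact this _) (hα.action.comp φ)
    set K := actKer (hα.action.comp φ) with hK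
    have hc : Nat.card (Fin n → Multiplicative (ZMod 4)) = 4 ^ n := by simp
    rw [hc] at h1
    have hKle : Nat.card K ∣ 2 := by
      let z : Fin n → Multiplicative (ZMod 4) := fun _ => Multiplicative.ofAdd 2
      have hz : z ^ 2 = 1 := by
        funext i
        show (Multiplicative.ofAdd (2 : ZMod 4)) ^ 2 = 1
        decide
      have hle : K ≤ Subgroup.zpowers z := by
        intro p hp
        by_cases h3 : dia u (fun i => (p i).toAdd.val) = 1
        · have : p = 1 := by
            funext i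
            apply (hne i (p i)).1
            have h4 := congrFun (congrFun h3 i) i
            unfold dia at h4
            rw [diagonal_apply_eq, one_apply_eq] at h4
            exact h4
          rw [this]
          exact one_mem _
        · have h4 := hcon p hp h3
          have : p = z := by
            funext i
            apply (hne i (p i)).2
            have h5 := congrFun (congrFun h4 i) i
            unfold dia at h5
            rw [diagonal_apply_eq, neg_apply, one_apply_eq] at h5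
            exact h5
          rw [this]
          exact Subgroup.mem_zpowers z
      refine (Subgroup.card_dvd_of_le hle).trans ?_
      rw [Nat.card_zpowers]
      exact orderOf_dvd_of_pow_eq_one hz
    have h3 : (Nat.card K : ℤ) ∣ 2 := by exact_mod_cast hKle
    have h4 := h1.trans (mul_dvd_mul_right h3 _)
    have h5 : (2 : ℤ) * (2 ^ finrank ℝ E * Pool.Agent.Helper381.eulerChar M) =
        2 ^ (finrank ℝ E + 1) * Pool.Agent.Helper381.eulerChar M := by ring
    rw [h5] at h4
    exact_mod_cast h4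
  refine ⟨?_, fun hNS => hα.finite_range ?_⟩
  · obtain ⟨x, hx, h3, h4⟩ := hex
    exact ⟨φ x, _, hx, hcoe x, h3, h4⟩
  · obtain ⟨x, hx, h3, h4⟩ := hex
    rcases hNS (actKer hα.action) inferInstance with h5 | h5
    · rcases h5 (φ x) hx with h6 | h6
      · exact absurd h6 h3
      · exact absurd h6 h4
    · exact h5

lemma val_two {n : ℕ} : Nat.gcd n 2 = if n % 2 = 0 then 2 else 1 := by
  have h1 : Nat.gcd n 2 = Nat.gcd (n % 2) 2 := by rw [Nat.gcd_comm n 2, Nat.gcd_rec 2 n]
  have h2 : n % 2 < 2 := Nat.mod_lt _ (by norm_num)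
  rw [h1]
  interval_cases h : n % 2 <;> simp

/-- the number of dimensions lost, for `q = 2, 4, p` -/
def loss (q n : ℕ) : ℕ :=
  if q = 2 then (if n % 2 = 0 then 1 else 0)
  else if q = 4 then (if n % 4 = 0 then 2 else if n % 4 = 2 then 1 else 0)
  else (if q ∣ n then 2 else 0)

/-- the dimension covered: `n - 1` for `q = 2`, and `2 n - 2` otherwise -/
def top (q n : ℕ) : ℕ := if q = 2 then n - 1 else 2 * n - 2

lemma cond_aux {p a b : ℕ} (hp : p.Prime) {χ : ℤ} (hχ : ¬ (p : ℤ) ∣ χ) (hab : b < a) :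
    ¬ ((p : ℤ) ^ a ∣ p ^ b * χ) := by
  intro hdvd
  have h1 : (p : ℤ) ^ a = p ^ b * p ^ (a - b) := by
    rw [← pow_add]
    congr 1
    omega
  rw [h1] at hdvd
  have hp0 : (0 : ℤ) < p := by exact_mod_cast hp.pos
  have h5 := Int.dvd_of_mul_dvd_mul_left (by positivity) hdvd
  exact hχ ((dvd_pow_self (p : ℤ) (by omega)).trans h5)

theorem cond_of {p q n m : ℕ} (hpq : (p = 2 ∧ (q = 2 ∨ q = 4)) ∨ (q = p ∧ p.Prime ∧ p ≠ 2)) {χ : ℤ}
    (hχ : ¬ (p : ℤ) ∣ χ) (h : m + loss q n < top q n) : Cond q n m χ := by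
  rcases hpq with ⟨rfl, rfl | rfl⟩ | ⟨rfl, hp, hp2⟩
  · unfold Cond cap
    rw [if_pos (Or.inl rfl), val_two]
    have e : (((if n % 2 = 0 then 2 else 1 : ℕ)) : ℤ) * (((2 ^ m : ℕ) : ℤ) * χ) =
        ((2 : ℕ) : ℤ) ^ (loss 2 n + m) * χ := by
      unfold loss
      rw [if_pos rfl]
      split_ifs
      · push_cast; ring
      · push_cast; ring
    rw [e]
    apply cond_aux Nat.prime_two hχ
    unfold top at h
    rw [if_pos rfl] at h
    omega
  · unfold Cond cap
    rw [if_pos (Or.inr rfl)]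
    have hg : Nat.gcd n 4 = 2 ^ loss 4 n := by
      have h1 : Nat.gcd n 4 = Nat.gcd (n % 4) 4 := by rw [Nat.gcd_comm n 4, Nat.gcd_rec 4 n]
      have h2 : n % 4 < 4 := Nat.mod_lt _ (by norm_num)
      rw [h1]
      unfold loss
      interval_cases h : n % 4 <;> simp
    have e : ((Nat.gcd n 4 : ℕ) : ℤ) * (((2 ^ m : ℕ) : ℤ) * χ) =
        ((2 : ℕ) : ℤ) ^ (loss 4 n + m) * χ := by
      rw [hg]
      push_cast
      ring
    have e2 : ((4 : ℕ) : ℤ) ^ (n - 1) = ((2 : ℕ) : ℤ) ^ (2 * (n - 1)) := by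
      rw [pow_mul]
      norm_num
    rw [e, e2]
    apply cond_aux Nat.prime_two hχ
    unfold top at h
    rw [if_neg (by norm_num)] at h
    omega
  · have h24 : ¬ (q = 2 ∨ q = 4) := by
      rintro (h1 | h1)
      · exact hp2 h1
      · rw [h1] at hp; revert hp; norm_num
    unfold Cond cap
    rw [if_neg h24]
    push Not at h24
    unfold loss top at h
    rw [if_neg h24.1, if_neg h24.2, if_neg h24.1] at h
    by_cases h1 : q ∣ n
    · rw [if_pos h1] at h
      have e : ((Nat.gcd n q : ℕ) : ℤ) * (((q ^ (m / 2) : ℕ) : ℤ) * χ) =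
          (q : ℤ) ^ (1 + m / 2) * χ := by
        rw [Nat.gcd_eq_right h1]
        push_cast
        ring
      rw [e]
      apply cond_aux hp hχ
      omega
    · rw [if_neg h1] at h
      have e : ((Nat.gcd n q : ℕ) : ℤ) * (((q ^ (m / 2) : ℕ) : ℤ) * χ) =
          (q : ℤ) ^ (m / 2) * χ := by
        rw [Nat.Coprime.symm ((Nat.Prime.coprime_iff_not_dvd hp).2 h1)]
        push_cast
        ring
      rw [e]
      apply cond_aux hp hχ
      omega

/-- `4 ^ n` does not divide `2 ^ (m + 1) * χ` -/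
def CondO (n m : ℕ) (χ : ℤ) : Prop := ¬ ((4 : ℤ) ^ n ∣ 2 ^ (m + 1) * χ)

theorem condO_of {n m : ℕ} {χ : ℤ} (hχ : Odd χ) (h : m < 2 * n - 1) : CondO n m χ := by
  unfold CondO
  have e : (4 : ℤ) ^ n = ((2 : ℕ) : ℤ) ^ (2 * n) := by
    rw [pow_mul]
    norm_num
  have e2 : (2 : ℤ) ^ (m + 1) * χ = ((2 : ℕ) : ℤ) ^ (m + 1) * χ := by norm_num
  rw [e, e2]
  refine cond_aux Nat.prime_two (fun h2 => ?_) (by omega)
  exact (Int.not_even_iff_odd.2 hχ) (even_iff_two_dvd.2 (by exact_mod_cast h2))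

/-- The conclusion of part (1): the kernel of `α` contains a diagonal matrix with two different
entries, powers of `ζ`, and the image is finite under property `(NS)`. -/
def ConclusionI {R : Type} [CommRing R] {n : ℕ} (ζ : R)
    {Γ : Subgroup (Matrix.SpecialLinearGroup (Fin n) R)} (α : Γ → (M ≃ₘ^∞⟮𝓘(ℝ, E), 𝓘(ℝ, E)⟯ M)) :
    Prop :=
  (∃ (g : Γ) (e : Fin n → ℕ), (∀ x, α g x = x) ∧
    ((g : Matrix.SpecialLinearGroup (Fin n) R) : Matrix (Fin n) (Fin n) R) =
      diagonal (fun i => ζ ^ e i) ∧ ∃ i j, ζ ^ e i ≠ ζ ^ e j) ∧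
  (NS Γ → (Set.range α).Finite)

/-- `Γ` contains all diagonal matrices with entries powers of the `u i` -/
def HasDia {O : Type} [Ring O] {n : ℕ} (u : Fin n → O) (Γ : Subgroup (Matrix (Fin n) (Fin n) O)ˣ) :
    Prop :=
  ∀ g : (Matrix (Fin n) (Fin n) O)ˣ,
    (∃ e : Fin n → ℕ, (g : Matrix (Fin n) (Fin n) O) = dia u e) → g ∈ Γ

/-- Every normal subgroup of `Γ` is contained in `{1, -1}` or has finite index. -/
def NSO {O : Type} [Ring O] {n : ℕ} (Γ : Subgroup (Matrix (Fin n) (Fin n) O)ˣ) : Prop :=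
  ∀ N : Subgroup Γ, N.Normal →
    (∀ g ∈ N, ((g : (Matrix (Fin n) (Fin n) O)ˣ) : Matrix (Fin n) (Fin n) O) = 1 ∨
      ((g : (Matrix (Fin n) (Fin n) O)ˣ) : Matrix (Fin n) (Fin n) O) = -1) ∨
    Finite (Γ ⧸ N)

/-- The conclusion of part (3): the kernel of `α` contains a diagonal matrix with entries powers of
the `u i` different from `1` and `-1`, and the image is finite under property `(NSO)`. -/
def ConclusionIII {O : Type} [Ring O] {n : ℕ} (u : Fin n → O)
    {Γ : Subgroup (Matrix (Fin n) (Fin n) O)ˣ} (α : Γ → (M ≃ₘ^∞⟮𝓘(ℝ, E), 𝓘(ℝ, E)⟯ M)) : Prop :=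
  (∃ (g : Γ) (e : Fin n → ℕ), (∀ x, α g x = x) ∧
    ((g : (Matrix (Fin n) (Fin n) O)ˣ) : Matrix (Fin n) (Fin n) O) = dia u e ∧
    dia u e ≠ 1 ∧ dia u e ≠ -1) ∧
  (NSO Γ → (Set.range α).Finite)

/-- **Groups of matrices containing diagonal matrices of finite order.**  `M` is a closed connected
manifold of dimension `m = finrank ℝ E`.
(1) `R` is a commutative ring, `ζ` a primitive `q`-th root of unity in `R`, `q = 2`, `q = 4` or an odd
prime, `Γ ⊂ SL_n(R)`, `n ≥ 3`, a subgroup containing the diagonal matrices of determinant one with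
entries powers of `ζ`, and `Cond q n m χ(M)` holds.  Then for every homomorphism `α : Γ → Diff(M)` the
kernel contains a diagonal matrix with two different entries, powers of `ζ`; and if every normal
subgroup of `Γ` consists of scalar matrices or has finite index, `α` has finite image.
(2) The group `SU(a; R)` is an example of a group `Γ` as in (1), if `R` is a ring with involution and
`ζ* ζ = 1`.
(3) `O` is a ring in which `2 ≠ 0`, `u_i ^ 2 = -1`, and `Γ ⊂ GL_n(O)` contains the diagonal matrices with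
entries `u_i ^ (e_i)`.  If `4 ^ n` does not divide `2 ^ (m + 1) χ(M)`, then the kernel of
every homomorphism `α : Γ → Diff(M)` contains such a matrix different from `1` and `-1`; and if every
normal subgroup of `Γ` is contained in `{1, -1}` or has finite index, `α` has finite image.
(4), (5) The numerical conditions hold if `χ(M)` is prime to `q` and `m + loss q n < top q n`, and
in (3) if `χ(M)` is odd and `m < 2 n - 1`. -/
theorem result [CompactSpace M] [T2Space M] [ConnectedSpace M] :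
    (∀ (R : Type) [CommRing R] (n : ℕ), 3 ≤ n → ∀ q : ℕ, (q = 2 ∨ q = 4 ∨ (q.Prime ∧ q ≠ 2)) →
      ∀ ζ : R, IsPrimitiveRoot ζ q → ∀ Γ : Subgroup (Matrix.SpecialLinearGroup (Fin n) R),
      HasDiag ζ Γ → ∀ α : Γ → (M ≃ₘ^∞⟮𝓘(ℝ, E), 𝓘(ℝ, E)⟯ M), IsHom α →
      Cond q n (finrank ℝ E) (Pool.Agent.Helper381.eulerChar M) → ConclusionI ζ α) ∧
    (∀ (R : Type) [CommRing R] [StarRing R] (n : ℕ) (a : Fin n → R) (ζ : R),
      star ζ * ζ = 1 → HasDiag ζ (SUG a)) ∧
    (∀ (O : Type) [Ring O], (2 : O) ≠ 0 → ∀ (n : ℕ) (u : Fin n → O), (∀ i, u i * u i = -1) →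
      ∀ Γ : Subgroup (Matrix (Fin n) (Fin n) O)ˣ, HasDia u Γ →
      ∀ α : Γ → (M ≃ₘ^∞⟮𝓘(ℝ, E), 𝓘(ℝ, E)⟯ M), IsHom α →
      CondO n (finrank ℝ E) (Pool.Agent.Helper381.eulerChar M) → ConclusionIII u α) ∧
    (∀ p q n : ℕ, ((p = 2 ∧ (q = 2 ∨ q = 4)) ∨ (q = p ∧ p.Prime ∧ p ≠ 2)) →
      ¬ (p : ℤ) ∣ Pool.Agent.Helper381.eulerChar M → finrank ℝ E + loss q n < top q n →
      Cond q n (finrank ℝ E) (Pool.Agent.Helper381.eulerChar M)) ∧
    (∀ n : ℕ, Odd (Pool.Agent.Helper381.eulerChar M) → finrank ℝ E < 2 * n - 1 →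
      CondO n (finrank ℝ E) (Pool.Agent.Helper381.eulerChar M)) :=
  ⟨fun _ _ _ hn _ hq _ hζ Γ hΓ α hα h => commutative hn hq hζ Γ hΓ α hα h,
    fun _ _ _ _ a _ hs => hasDiag_SUG a hs,
    fun _ _ h2 _ u hu Γ hΓ α hα h => quaternionic h2 u hu Γ hΓ α hα h,
    fun _ _ _ hpq hχ h => cond_of hpq hχ h,
    fun _ hχ h => condO_of hχ h⟩

end Pool.Agent.Results.MP_d483fb_an.DiagonalTorsion
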