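import Pool.Agent.N987.ZX.Act
import Pool.Agent.N987.ZX.Pauli

/-!
# MP_d483fb_an: lattices in exceptional groups which contain extraspecial 2-groups

Let `P` be a finite 2-group with centre of order two or cyclic of order four and all squares in the
subgroup `{1, z}` of order two: an extraspecial group of order `2 ^ (2 k + 1)`, or the central
product of such a group with the cyclic group of order four.  We prove that the groups `Γ` which
contain such a group `P`, with an element `z` which is not central in `Γ`, and their subgroups of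
finite index cannot act on closed manifolds `M` of dimension smaller than `2 ^ k` (`2 ^ (k + 1)` in
the second case) without a conjugate of `z` acting trivially, if `χ(M)` times the index is odd (and
in general under a condition on the power of two which divides this number).

Such groups `P` are contained in lattices of exceptional groups.  For an explicit form of this let
`T_p = X^a Z^b`, for `p = (a, b)` in `𝔽₂^k × 𝔽₂^k`, be the Pauli operators on
`ℝ^(2 ^ k) = 𝔽₂^k → ℝ`, and `v₁, …, v_s` elements whose operators anticommute pairwise.  Let first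
`r = 0`, `h = 1`, and `a ⬝ b = 1` for all `v i`.

* `k = 7`, `s = 15`: let `N` consist of the 120 elements `v i` and `v i + v j`, `i < j`, and let
  `w = 1`.  Then `mulA h w` is the Lie algebra `so(16) + ℝ^128` of type `E₈(8)`.
* `k = 6`, `s = 11` with `∑ v i = 0`: let `N` consist of the 66 elements `v i` and `v i + v j` and
  of the three non zero elements whose operators commute with them; let `w = 1` on the 66 elements
  and `w = 2` on the three others.  Then `mulA h w` is the Lie algebra `so(12) + su(2) + ℝ^64` of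
  type `E₇(-5)`.
* `k = 5`, `s = 9`: let `N` consist of the 45 elements `v i` and `v i + v j`, with `w = 1`, and of
  their sum, with `w = 3`.  Then `mulA h w` is the Lie algebra `so(10) + u(1) + ℝ^32` of type
  `E₆(-14)`.

So over `ℤ` the groups `AutA h w` are lattices in `E₈(8)`, `E₇(-5)`, `E₆(-14)` (up to finite
groups), over `ℤ[i]` or another order of an imaginary quadratic field they are lattices in the
complex groups `E₈`, `E₇`, `E₆`, and with `w` multiplied by `√2` over `ℤ[√2]` cocompact lattices.

Let now `r = 1`, `h = (1, -1)`, and `a ⬝ b + a₁ = 1` for all `v i`; multiply `w p` by `-1` if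
`a ⬝ b = 0`.  According to the number of the `v i` with `a ⬝ b = 0` these are the Lie algebras

* `so(12, 4) + ℝ^128` of type `E₈(-24)` (4 or 12 such elements), `so(8, 8) + ℝ^128` of type `E₈(8)`;
* `so(10, 2) + sl(2) + ℝ^64` of type `E₇(-25)` (2 or 10 such elements), `so(8, 4) + su(2) + ℝ^64` of
  type `E₇(-5)`, `so(6, 6) + sl(2) + ℝ^64` of type `E₇(7)`;
* `so(9, 1) + ℝ + ℝ^32` of type `E₆(-26)` (1 or 9 such elements), and `E₆(6)`, `E₆(2)`, `E₆(-14)`.

(These facts are not used and not proved here.)  The involution `(1, -1)` of the algebra is the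
image of the central element of the Pauli group of order `2 ^ (2 l + 1)`, `l = k - r`.
-/

set_option autoImplicit false

namespace Pool.Agent.Results.MP_d483fb_an.ExtraspecialTorsion

open scoped Manifold ContDiff
open Pool.Agent.H185.ZM Pool.Agent.N987.ZX Module

/-- Every normal subgroup is central or has finite index. -/
def NormalSubgroupProperty (Γ : Type) [Group Γ] : Prop :=
  ∀ N : Subgroup Γ, N.Normal → N ≤ Subgroup.center Γ ∨ Finite (Γ ⧸ N)

section defs

variable (E : Type) [NormedAddCommGroup E] [NormedSpace ℝ E] [FiniteDimensional ℝ E]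
  (M : Type) [TopologicalSpace M] [ChartedSpace E M]

/-- The condition on the manifold `M` and the index `n`: `2 ^ e` does not divide
`2 ^ ⌊log₂ (dim M)⌋ χ(M) n`. -/
def Small (n e : ℕ) : Prop :=
  ¬ ((2 : ℤ) ^ e ∣ 2 ^ Nat.log 2 (finrank ℝ E) * Pool.Agent.Helper381.eulerChar M * n)

/-- The subgroup `Γ'` of `Γ`, the element `ζ` of `Γ` and the manifold `M` have the property:
for every homomorphism `α : Γ' → Diff(M)` some conjugate of `ζ` in `Γ` belongs to `Γ'` and acts
trivially on `M`; and if moreover no conjugate of `ζ` is a central element of `Γ'` and every normal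
subgroup of `Γ'` is central or of finite index, then `α` has finite image. -/
def Rigid {Γ : Type} [Group Γ] (ζ : Γ) (Γ' : Subgroup Γ) : Prop :=
  ∀ α : Γ' → (M ≃ₘ^∞⟮𝓘(ℝ, E), 𝓘(ℝ, E)⟯ M), IsHom α →
    (∃ (γ : Γ) (h : γ⁻¹ * ζ * γ ∈ Γ'), ∀ x, α ⟨γ⁻¹ * ζ * γ, h⟩ x = x) ∧
    ((∀ (γ : Γ) (h : γ⁻¹ * ζ * γ ∈ Γ'), (⟨γ⁻¹ * ζ * γ, h⟩ : Γ') ∉ Subgroup.center Γ') →
      NormalSubgroupProperty Γ' → (Set.range α).Finite)

/-- Every group which contains an extraspecial 2-group (`c = 1`) or the central product of such a
group with the cyclic group of order four (`c = 2`). -/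
def AllExtraspecial : Prop :=
  ∀ (P : Type) [Group P] [Finite P] (z : P) (k c : ℕ), ExtraSpecial z k c → (c = 1 ∨ c = 2) →
    ∀ (Γ : Type) [Group Γ] (φ : P →* Γ) (Γ' : Subgroup Γ) [Finite (Γ ⧸ Γ')],
      Small E M Γ'.index (k + c - 1) → Rigid E M (φ z) Γ'

/-- The automorphism groups of the algebras `mulA h w`. -/
def AllAutA : Prop :=
  ∀ (R : Type) [CommRing R] (r l : ℕ) (N : Finset (V2 (r + l) × V2 (r + l)))
    (h : V2 (r + l) → R) (w : N → R), FirstOnly h → ∃ ζ : AutGrp h w, IsZeta h w ζ ∧
      ∀ (Γ' : Subgroup (AutGrp h w)) [Finite (AutGrp h w ⧸ Γ')],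
        Small E M Γ'.index l → Rigid E M ζ Γ'

end defs

variable {E : Type} [NormedAddCommGroup E] [NormedSpace ℝ E] [FiniteDimensional ℝ E]
  {M : Type} [TopologicalSpace M] [ChartedSpace E M] [IsManifold 𝓘(ℝ, E) ∞ M]

omit [FiniteDimensional ℝ E] [IsManifold 𝓘(ℝ, E) ∞ M] in
theorem small_of_lt {n e v : ℕ}
    (h1 : ¬ ((2 : ℤ) ^ (v + 1) ∣ Pool.Agent.Helper381.eulerChar M * n))
    (h2 : v + Nat.log 2 (finrank ℝ E) < e) : Small E M n e := by
  intro hdvd
  apply h1
  have h3 : (2 : ℤ) ^ e = 2 ^ Nat.log 2 (finrank ℝ E) * 2 ^ (e - Nat.log 2 (finrank ℝ E)) := by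
    rw [← pow_add]
    congr 1
    omega
  rw [h3, mul_assoc] at hdvd
  have h4 := Int.dvd_of_mul_dvd_mul_left (by positivity) hdvd
  exact (pow_dvd_pow (2 : ℤ) (by omega)).trans h4

theorem rigid_of_small [CompactSpace M] [T2Space M] [ConnectedSpace M] {P : Type} [Group P]
    [Finite P] {z : P} {k c : ℕ} (hP : ExtraSpecial z k c) (hc : c = 1 ∨ c = 2) {Γ : Type}
    [Group Γ] (φ : P →* Γ) (Γ' : Subgroup Γ) [Finite (Γ ⧸ Γ')]
    (hs : Small E M Γ'.index (k + c - 1)) : Rigid E M (φ z) Γ' := by
  intro α hα
  obtain ⟨γ, hx, hk⟩ := fi_zx hP hc φ Γ' hα.action hs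
  refine ⟨⟨γ, hx, hk⟩, fun hz hNS => hα.finite_range ?_⟩
  rcases hNS (actKer hα.action) inferInstance with h1 | h1
  · exact absurd (h1 hk) (hz γ hx)
  · exact h1

/-- **Groups which contain extraspecial 2-groups acting on closed manifolds.**  Let `M` be a closed
connected smooth manifold.
(1) Let `P` be a group of order `2 ^ (2 k + c)`, `c = 1` or `c = 2`, extraspecial or the central
product of such a group with the cyclic group of order four, with the central involution `z` which
is a commutator, `φ : P → Γ` a homomorphism to any group `Γ` and `Γ'` a subgroup of finite index `n`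
of `Γ`.  If `2 ^ (k + c - 1)` does not divide `2 ^ ⌊log₂ (dim M)⌋ χ(M) n`, then for every
homomorphism `α : Γ' → Diff(M)` a conjugate of `φ z` belongs to `Γ'` and to the kernel of `α`; and
`α` has finite image if moreover every normal subgroup of `Γ'` is central or of finite index and no
conjugate of `φ z` is central in `Γ'`.
(2) This applies with exponent `l` to all subgroups of finite index of the automorphism group of the
algebra `mulA h w` on the space `R^N + (𝔽₂^(r + l) → R)` over any commutative ring `R`, for all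
`N`, `w : N → R` and all functions `h` of the first `r` coordinates, with the automorphism
`ζ = (1, -1)`.
(3) The condition holds if `χ(M) n` is not divisible by `2 ^ (v + 1)`, `dim M > 0` and
`2 ^ v * dim M < 2 ^ e`; for example if `χ(M)` and `n` are odd and `0 < dim M < 2 ^ e`. -/
theorem result [CompactSpace M] [T2Space M] [ConnectedSpace M] :
    AllExtraspecial E M ∧ AllAutA E M ∧
    ∀ n e v : ℕ, ¬ ((2 : ℤ) ^ (v + 1) ∣ Pool.Agent.Helper381.eulerChar M * n) →
      0 < finrank ℝ E → 2 ^ v * finrank ℝ E < 2 ^ e → Small E M n e := by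
  refine ⟨fun P _ _ z k c hP hc Γ _ φ Γ' _ hs => rigid_of_small hP hc φ Γ' hs,
    fun R _ r l N h w hh => ⟨phiA h w hh (PG.z l), phiA_z h w hh, fun Γ' _ hs => ?_⟩,
    fun n e v hv hm0 hm => small_of_lt hv ?_⟩
  · exact rigid_of_small (PG.extraSpecial l) (Or.inl rfl) (phiA h w hh) Γ'
      (by rwa [Nat.add_sub_cancel])
  · have h1 : 2 ^ (v + Nat.log 2 (finrank ℝ E)) < 2 ^ e := by
      refine lt_of_le_of_lt ?_ hm
      rw [pow_add]
      exact Nat.mul_le_mul_left _ (Nat.pow_log_le_self 2 hm0.ne')
    exact (Nat.pow_lt_pow_iff_right (by norm_num)).1 h1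

end Pool.Agent.Results.MP_d483fb_an.ExtraspecialTorsion
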