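import Pool.Agent.N287.ZM.NCact

/-!
# MP_d483fb_an: elementary groups over noncommutative rings containing the quaternion group

`O` is a ring whose group of units contains the quaternion group `Q₈` of order eight, with `-1` as
central involution, and `Γ` is any group of invertible `n × n` matrices over `O` which contains the
elementary matrices and the diagonal matrices with entries in `Q₈`.  Example: `Γ = GL_n(O)`, `O` the
Lipschitz or Hurwitz order, which modulo a finite group is a lattice in `SL_n(ℍ)`; then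
`min(d(G), v(G)) = 4 n - 4` and `r(G) = n - 1`.
-/

set_option autoImplicit false

namespace Pool.Agent.Results.MP_d483fb_an.NoncommutativeRings

open scoped Manifold ContDiff
open Pool.Agent.H185.ZM Pool.Agent.N287.NC Module Matrix

variable {E : Type} [NormedAddCommGroup E] [NormedSpace ℝ E] [FiniteDimensional ℝ E]
  {M : Type} [TopologicalSpace M] [ChartedSpace E M] [IsManifold 𝓘(ℝ, E) ∞ M]
  {O : Type} [Ring O]

/-- the diagonal matrices with entries in the quaternion group of order eight -/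
def quatDiag (u : QuaternionGroup 2 →* O) (n : ℕ) :
    (Fin n → QuaternionGroup 2) →* (Matrix (Fin n) (Fin n) O)ˣ :=
  MonoidHom.toHomUnits
    { toFun := fun q => diagonal (fun i => u (q i))
      map_one' := by
        show diagonal (fun i : Fin n => u ((1 : Fin n → QuaternionGroup 2) i)) = 1
        simp only [Pi.one_apply, map_one]
        exact diagonal_one
      map_mul' := fun p q => by
        show diagonal (fun i => u ((p * q) i)) = diagonal (fun i => u (p i)) *
          diagonal (fun i => u (q i))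
        rw [diagonal_mul_diagonal]
        simp only [Pi.mul_apply, map_mul] }

/-- `4 ^ (n - 1)` does not divide `2 ^ ⌊m / 2⌋ χ` -/
def Cond (n m : ℕ) (χ : ℤ) : Prop := ¬ ((4 : ℤ) ^ (n - 1) ∣ 2 ^ (m / 2) * χ)

theorem cond_of {n m : ℕ} {χ : ℤ} (hχ : Odd χ) (h : m < 4 * n - 4) : Cond n m χ := by
  intro hdvd
  have h4 : (4 : ℤ) ^ (n - 1) = 2 ^ (m / 2) * 2 ^ (2 * (n - 1) - m / 2) := by
    rw [← pow_add, show (4 : ℤ) = 2 ^ 2 by norm_num, ← pow_mul]
    congr 1
    omega
  rw [h4] at hdvd
  have h5 := Int.dvd_of_mul_dvd_mul_left (by positivity) hdvd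
  have h6 : (2 : ℤ) ∣ χ := (dvd_pow_self 2 (by omega)).trans h5
  exact (Int.not_even_iff_odd.2 hχ) (even_iff_two_dvd.2 h6)

theorem arith {n m : ℕ} {χ : ℤ} (h : Cond n m χ) (hn : 1 ≤ n) :
    ¬ ((2 : ℤ) ^ (3 * n) ∣ 2 ^ (n + 2 + m / 2) * χ) := by
  intro hdvd
  apply h
  have h1 : (2 : ℤ) ^ (3 * n) = 2 ^ (n + 2) * 4 ^ (n - 1) := by
    rw [show (4 : ℤ) = 2 ^ 2 by norm_num, ← pow_mul, ← pow_add]
    congr 1
    omega
  have h2 : (2 : ℤ) ^ (n + 2 + m / 2) * χ = 2 ^ (n + 2) * (2 ^ (m / 2) * χ) := by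
    rw [pow_add, mul_assoc]
  rw [h1, h2] at hdvd
  exact Int.dvd_of_mul_dvd_mul_left (by positivity) hdvd

theorem arith' {n m : ℕ} {χ : ℤ} (h : Cond n m χ) :
    ¬ ((2 : ℤ) ^ (4 * (n - 1)) ∣ 2 ^ m * χ) := by
  intro hdvd
  apply h
  have h0 : (4 : ℤ) ^ (n - 1) = 2 ^ (2 * (n - 1)) := by
    rw [show (4 : ℤ) = 2 ^ 2 by norm_num, ← pow_mul]
  rw [h0]
  by_cases h1 : 2 * (n - 1) ≤ m / 2
  · exact (pow_dvd_pow 2 h1).trans (dvd_mul_right _ _)
  · have h2 : (2 : ℤ) ^ (4 * (n - 1)) = 2 ^ m * 2 ^ (4 * (n - 1) - m) := by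
      rw [← pow_add]
      congr 1
      omega
    rw [h2] at hdvd
    have h3 := Int.dvd_of_mul_dvd_mul_left (by positivity) hdvd
    have h4 := mul_dvd_mul_left ((2 : ℤ) ^ (m / 2)) h3
    rw [← pow_add] at h4
    exact (pow_dvd_pow 2 (by omega)).trans h4

/-- `g` acts trivially -/
def Triv {n : ℕ} {Γ : Subgroup (Matrix (Fin n) (Fin n) O)ˣ}
    (α : Γ → (M ≃ₘ^∞⟮𝓘(ℝ, E), 𝓘(ℝ, E)⟯ M)) (g : (Matrix (Fin n) (Fin n) O)ˣ) : Prop :=
  ∃ h : g ∈ Γ, ∀ x, α ⟨g, h⟩ x = x

/-- `J` is a two sided ideal containing `2`, of index `1`, `2`, `4` or `8`; the index is at most `4`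
if `4 ≤ n`, at most `2` if `7 ≤ n`, and `1` if `15 ≤ n` -/
structure Small (n : ℕ) (J : AddSubgroup O) : Prop where
  left : ∀ c ∈ J, ∀ b : O, b * c ∈ J
  right : ∀ c ∈ J, ∀ b : O, c * b ∈ J
  two : (2 : O) ∈ J
  index : J.index = 1 ∨ J.index = 2 ∨ J.index = 4 ∨ J.index = 8
  four : 4 ≤ n → J.index ≤ 4
  seven : 7 ≤ n → J.index ≤ 2
  fifteen : 15 ≤ n → J.index = 1

theorem small_d {n d : ℕ} (hn : 3 ≤ n)
    (h : ∀ c, 1 ≤ c → c + 2 ≤ n → d * (c * (n - c)) < 4 * (n - 1)) :
    d ≤ 3 ∧ (4 ≤ n → d ≤ 2) ∧ (7 ≤ n → d ≤ 1) ∧ (15 ≤ n → d = 0) := by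
  refine ⟨?_, ?_, ?_, ?_⟩
  · have h1 := h 1 le_rfl (by omega)
    by_contra hcon
    push Not at hcon
    have h2 : 4 * (n - 1) ≤ d * (1 * (n - 1)) := by
      rw [one_mul]
      exact Nat.mul_le_mul_right _ hcon
    omega
  · intro h4
    have h1 := h 2 (by norm_num) (by omega)
    by_contra hcon
    push Not at hcon
    have h2 : 3 * (2 * (n - 2)) ≤ d * (2 * (n - 2)) := Nat.mul_le_mul_right _ hcon
    omega
  · intro h7
    have h1 := h (n / 2) (by omega) (by omega)
    by_contra hcon
    push Not at hcon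
    have h2 : 2 * (n / 2 * (n - n / 2)) ≤ d * (n / 2 * (n - n / 2)) :=
      Nat.mul_le_mul_right _ hcon
    rcases Nat.even_or_odd' n with ⟨c, hc | hc⟩
    · have e1 : n / 2 = c := by omega
      have e2 : n - c = c := by omega
      rw [e1, e2] at h1 h2
      have h3 : 4 * c ≤ c * c := Nat.mul_le_mul_right _ (by omega)
      omega
    · have e1 : n / 2 = c := by omega
      have e2 : n - c = c + 1 := by omega
      rw [e1, e2] at h1 h2
      have h3 : c * 4 ≤ c * (c + 1) := Nat.mul_le_mul_left _ (by omega)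
      omega
  · intro h15
    have h1 := h (n / 2) (by omega) (by omega)
    by_contra hcon
    have h2 : 1 * (n / 2 * (n - n / 2)) ≤ d * (n / 2 * (n - n / 2)) :=
      Nat.mul_le_mul_right _ (by omega)
    rcases Nat.even_or_odd' n with ⟨c, hc | hc⟩
    · have e1 : n / 2 = c := by omega
      have e2 : n - c = c := by omega
      rw [e1, e2] at h1 h2
      have h3 : 8 * c ≤ c * c := Nat.mul_le_mul_right _ (by omega)
      omega
    · have e1 : n / 2 = c := by omega
      have e2 : n - c = c + 1 := by omega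
      rw [e1, e2] at h1 h2
      have h3 : c * 8 ≤ c * (c + 1) := Nat.mul_le_mul_left _ (by omega)
      omega

/-- **Actions of elementary groups over rings containing the quaternion group.**  Suppose that
`4 ^ (n - 1)` does not divide `2 ^ ⌊dim M / 2⌋ * χ(M)`, `n ≥ 3`.  Then for every homomorphism
`α : Γ → Diff(M)`:
(1) the elementary matrices with entries in a two sided ideal of `O` of index at most `8` act
trivially, and the index is at most `4` (`2`, `1`) if `n ≥ 4` (`n ≥ 7`, `n ≥ 15`);
(2) if `n ≥ 7` the image of the elementary group is finite, and the image of `Γ` is finite if the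
elementary group has finite index in `Γ`;
(3) if `n ≥ 15` the elementary group acts trivially.
(4) The hypothesis holds if `χ(M)` is odd and `dim M < 4 n - 4`. -/
theorem result {n : ℕ} (hn : 3 ≤ n) (u : QuaternionGroup 2 →* O) (hu : Function.Injective u)
    (hz : u (QuaternionGroup.a 2) = -1) (Γ : Subgroup (Matrix (Fin n) (Fin n) O)ˣ)
    (hE : EN n O ≤ Γ) (hD : ∀ q, quatDiag u n q ∈ Γ) [CompactSpace M] [T2Space M]
    [ConnectedSpace M] :
    (∀ α : Γ → (M ≃ₘ^∞⟮𝓘(ℝ, E), 𝓘(ℝ, E)⟯ M), IsHom α →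
      Cond n (finrank ℝ E) (Pool.Agent.Helper381.eulerChar M) →
      (∃ J : AddSubgroup O, Small n J ∧ ∀ c ∈ J, ∀ (i j : Fin n) (h : i ≠ j), Triv α (nel h c)) ∧
      (7 ≤ n → (α '' {g | (g : (Matrix (Fin n) (Fin n) O)ˣ) ∈ EN n O}).Finite ∧
        (((EN n O).subgroupOf Γ).index ≠ 0 → (Set.range α).Finite)) ∧
      (15 ≤ n → ∀ g ∈ EN n O, Triv α g)) ∧
    (Odd (Pool.Agent.Helper381.eulerChar M) → finrank ℝ E < 4 * n - 4 →
      Cond n (finrank ℝ E) (Pool.Agent.Helper381.eulerChar M)) := by
  refine ⟨fun α hα hC => ?_, cond_of⟩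
  let φ : (Fin n → QuaternionGroup 2) →* Γ :=
    { toFun := fun q => ⟨quatDiag u n q, hD q⟩
      map_one' := Subtype.ext (map_one _)
      map_mul' := fun p q => Subtype.ext (map_mul _ p q) }
  have hex : ∃ q : Fin n → QuaternionGroup 2, (∀ x, α (φ q) x = x) ∧
      diagonal (fun i => u (q i)) ≠ 1 ∧ diagonal (fun i => u (q i)) ≠ -1 := by
    by_contra hcon
    push Not at hcon
    apply arith hC (by omega)
    refine q8_dvd (hα.action.comp φ) (fun p hp => ?_)
    by_cases h1 : diagonal (fun i => u (p i)) = (1 : Matrix (Fin n) (Fin n) O)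
    · left
      funext i
      apply hu
      have h2 := congrFun (congrFun h1 i) i
      rw [diagonal_apply_eq, one_apply_eq] at h2
      rw [h2, Pi.one_apply, map_one]
    · right
      have h2 := hcon p hp h1
      funext i
      apply hu
      have h3 := congrFun (congrFun h2 i) i
      rw [diagonal_apply_eq, neg_apply, one_apply_eq] at h3
      rw [h3]
      exact hz.symm
  obtain ⟨q, hq1, hq2, hq3⟩ := hex
  have hN := kN_norm hE hα.action
  have hq : quatDiag u n q ∈ kN hα.action := (mem_kN hα.action _).2 ⟨hD q, hq1⟩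
  have h2 := two_mem_of_diag hn u hz hN q hq rfl hq2 hq3
  obtain ⟨d, hd, hdn⟩ := index_idl hn hE hα.action h2 (arith' hC)
  obtain ⟨hd3, hd4, hd7, hd15⟩ := small_d hn hdn
  have hidx : (idl (kN hα.action)).index = 2 ^ d := hd
  have htriv : 15 ≤ n → EN n O ≤ kN hα.action := by
    intro h15
    have h3 : idl (kN hα.action) = ⊤ := by
      rw [← AddSubgroup.index_eq_one, hidx, hd15 h15, pow_zero]
    unfold EN
    rw [Subgroup.closure_le]
    rintro _ ⟨i, j, h, c, rfl⟩
    have h4 : c ∈ idl (kN hα.action) := by rw [h3]; trivial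
    exact h4 i j h
  refine ⟨⟨idl (kN hα.action), ⟨fun c hc b => idl_left hN hn hc b,
    fun c hc b => idl_right hN hn hc b, h2, ?_, ?_, ?_, ?_⟩, fun c hc i j h =>
      (mem_kN hα.action _).1 (hc i j h)⟩, ?_, fun h15 g hg => (mem_kN hα.action _).1 (htriv h15 hg)⟩
  · rw [hidx]
    interval_cases d <;> simp
  · intro h4
    have := hd4 h4
    rw [hidx]
    interval_cases d <;> simp
  · intro h7
    have := hd7 h7
    rw [hidx]
    interval_cases d <;> simp
  · intro h15
    rw [hidx, hd15 h15, pow_zero]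
  · intro h7
    have h1 : ∀ c : O, c ∈ idl (kN hα.action) ∨ c - 1 ∈ idl (kN hα.action) := by
      have hd1 := hd7 h7
      intro c
      by_contra hcon
      push Not at hcon
      obtain ⟨hc0, hc1⟩ := hcon
      have h10 : (1 : O) ∉ idl (kN hα.action) := fun h => hc0 (by
        have := idl_right hN hn h c
        rwa [one_mul] at this)
      have h3 : (3 : ℕ) ≤ Nat.card (O ⧸ idl (kN hα.action)) := by
        have hfin : Finite (O ⧸ idl (kN hα.action)) := by
          apply Nat.finite_of_card_ne_zero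
          rw [hd]
          positivity
        have h5 : Function.Injective (fun i : Fin 3 => (![0, (1 : O), c] i : O ⧸ idl (kN hα.action))) := by
          intro i j hij
          have e0 : ((0 : O) : O ⧸ idl (kN hα.action)) = 0 := rfl
          have n1 : ((1 : O) : O ⧸ idl (kN hα.action)) ≠ 0 := fun h =>
            h10 ((QuotientAddGroup.eq_zero_iff _).1 h)
          have n2 : ((c : O) : O ⧸ idl (kN hα.action)) ≠ 0 := fun h =>
            hc0 ((QuotientAddGroup.eq_zero_iff _).1 h)
          have n3 : ((c : O) : O ⧸ idl (kN hα.action)) ≠ ((1 : O) : O ⧸ idl (kN hα.action)) :=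
            fun h => hc1 (by
              have h6 := QuotientAddGroup.eq.1 h.symm
              rwa [neg_add_eq_sub] at h6)
          fin_cases i <;> fin_cases j <;> simp at hij ⊢
          · exact n1 (by simpa using hij.symm)
          · exact n2 (by simpa using hij.symm)
          · exact n1 (by simpa using hij)
          · exact n3 (by simpa using hij.symm)
          · exact n2 (by simpa using hij)
          · exact n3 (by simpa using hij)
        have h6 := Nat.card_le_card_of_injective _ h5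
        simpa using h6
      rw [hd] at h3
      interval_cases d <;> simp at h3
    have hfin := finite_EN hE hα.action h2 h1
    refine ⟨?_, fun hfi => hα.finite_range (finite_of_EN hfi hfin)⟩
    let S : Set (Γ ⧸ actKer hα.action) :=
      (((EN n O).subgroupOf Γ).map (QuotientGroup.mk' (actKer hα.action)) : Set _)
    have hS : S.Finite := Set.toFinite _
    refine (hS.image (fun p => α p.out)).subset ?_
    rintro _ ⟨g, hg, rfl⟩
    refine ⟨(g : Γ ⧸ actKer hα.action), ⟨g, hg, rfl⟩, ?_⟩
    obtain ⟨v, hv⟩ := QuotientGroup.mk_out_eq_mul (actKer hα.action) g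
    show α _ = α g
    rw [hv]
    ext x
    rw [hα]
    exact congrArg (α g) (v.2 x)

end Pool.Agent.Results.MP_d483fb_an.NoncommutativeRings
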