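import Pool.Agent.N287.ZM.Blk

/-!
# MP_d483fb_an: special linear groups over commutative rings containing roots of unity

`R` is a commutative ring and `Γ = SL_n(R)`, `n ≥ 3`.  If `R` contains a square root of `-1`, or a
root of `1 + x + ... + x ^ (p - 1)` for an odd prime `p`, then every action of `Γ` by diffeomorphisms
on a closed connected manifold `M` is finite, respectively trivial, on the elementary subgroup
`E_n(R)`, under a condition on the Euler characteristic and the dimension of `M`, which holds if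
`χ(M)` is odd (respectively prime to `p`) and `dim M < 2 n - 2`, with a loss of at most two
dimensions when `n` is not prime to `2` (respectively `p`).  For rings of integers of number fields
`E_n(R) = SL_n(R)`, these groups are lattices in products of groups `SL_n(ℂ)`, for which
`min(d(G), v(G)) = 2 n - 2` (`n ≠ 4`; it is `5` for `n = 4`) and `r(G) = n - 1`.
-/

set_option autoImplicit false

namespace Pool.Agent.Results.MP_d483fb_an.RootsOfUnity

open scoped Manifold ContDiff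
open Pool.Agent.H185.ZM Pool.Agent.N287.ZM Module Matrix

variable {E : Type} [NormedAddCommGroup E] [NormedSpace ℝ E] [FiniteDimensional ℝ E]
  {M : Type} [TopologicalSpace M] [ChartedSpace E M] [IsManifold 𝓘(ℝ, E) ∞ M]

/-- `4 ^ (n - 1)` does not divide `gcd(n, 4) 2 ^ m χ` -/
def Cond4 (n m : ℕ) (χ : ℤ) : Prop := ¬ ((4 : ℤ) ^ (n - 1) ∣ (Nat.gcd n 4 : ℤ) * (2 ^ m * χ))

/-- `p ^ (n - 1)` does not divide `gcd(n, p) p ^ ⌊m / 2⌋ χ` -/
def CondP (p n m : ℕ) (χ : ℤ) : Prop :=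
  ¬ ((p : ℤ) ^ (n - 1) ∣ (Nat.gcd n p : ℤ) * (p ^ (m / 2) * χ))

/-- the number of dimensions lost: `0`, `1`, `2` for `n` odd, `n ≡ 2 mod 4`, `4 ∣ n` -/
def loss (n : ℕ) : ℕ := if n % 4 = 0 then 2 else if n % 4 = 2 then 1 else 0

lemma gcd_four (n : ℕ) : Nat.gcd n 4 = 2 ^ loss n := by
  have h1 : Nat.gcd n 4 = Nat.gcd (n % 4) 4 := by rw [Nat.gcd_comm n 4, Nat.gcd_rec 4 n]
  have h2 : n % 4 < 4 := Nat.mod_lt _ (by norm_num)
  rw [h1]
  unfold loss
  interval_cases h : n % 4 <;> simp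

theorem cond4_of {n m : ℕ} {χ : ℤ} (hχ : Odd χ) (h : m + loss n < 2 * n - 2) : Cond4 n m χ := by
  intro hdvd
  rw [gcd_four] at hdvd
  have h1 : (4 : ℤ) ^ (n - 1) = 2 ^ (loss n + m) * 2 ^ (2 * (n - 1) - (loss n + m)) := by
    rw [← pow_add, show (4 : ℤ) = 2 ^ 2 by norm_num, ← pow_mul]
    congr 1
    omega
  have h2 : ((2 ^ loss n : ℕ) : ℤ) * (2 ^ m * χ) = 2 ^ (loss n + m) * χ := by
    push_cast
    rw [pow_add, mul_assoc]
  rw [h1, h2] at hdvd
  have h5 := Int.dvd_of_mul_dvd_mul_left (by positivity) hdvd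
  have h6 : (2 : ℤ) ∣ χ := (dvd_pow_self 2 (by omega)).trans h5
  exact (Int.not_even_iff_odd.2 hχ) (even_iff_two_dvd.2 h6)

theorem condP_of {p n m : ℕ} (hp : p.Prime) {χ : ℤ} (hχ : ¬ (p : ℤ) ∣ χ)
    (h : m + (if p ∣ n then 2 else 0) < 2 * n - 2) : CondP p n m χ := by
  intro hdvd
  have h0 : ∃ e, Nat.gcd n p = p ^ e ∧ e + m / 2 < n - 1 := by
    by_cases h1 : p ∣ n
    · refine ⟨1, ?_, ?_⟩
      · rw [pow_one]
        exact Nat.gcd_eq_right h1
      · rw [if_pos h1] at h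
        omega
    · refine ⟨0, ?_, ?_⟩
      · rw [pow_zero]
        exact Nat.Coprime.symm ((Nat.Prime.coprime_iff_not_dvd hp).2 h1)
      · rw [if_neg h1] at h
        omega
  obtain ⟨e, he, hlt⟩ := h0
  rw [he] at hdvd
  have h1 : (p : ℤ) ^ (n - 1) = p ^ (e + m / 2) * p ^ (n - 1 - (e + m / 2)) := by
    rw [← pow_add]
    congr 1
    omega
  have h2 : ((p ^ e : ℕ) : ℤ) * (p ^ (m / 2) * χ) = p ^ (e + m / 2) * χ := by
    push_cast
    rw [pow_add, mul_assoc]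
  rw [h1, h2] at hdvd
  have hp0 : (0 : ℤ) < p := by exact_mod_cast hp.pos
  have h5 := Int.dvd_of_mul_dvd_mul_left (by positivity) hdvd
  exact hχ ((dvd_pow_self (p : ℤ) (by omega)).trans h5)

/-- the elementary subgroup acts trivially if all elementary matrices do -/
lemma triv_of {R : Type} [CommRing R] {n : ℕ}
    {α : Matrix.SpecialLinearGroup (Fin n) R → (M ≃ₘ^∞⟮𝓘(ℝ, E), 𝓘(ℝ, E)⟯ M)} (hα : IsHom α)
    (h : ∀ (i j : Fin n) (hij : i ≠ j) (c : R) (x : M), α (el hij c) x = x) :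
    ∀ g ∈ EE n R, ∀ x, α g x = x := by
  have h1 : EE n R ≤ actKer hα.action := by
    unfold EE
    rw [Subgroup.closure_le]
    rintro _ ⟨i, j, hij, c, rfl⟩
    exact fun x => h i j hij c x
  intro g hg
  exact h1 hg

lemma cond4_block {n m : ℕ} {χ : ℤ} (hn : 7 ≤ n) (h : Cond4 n m χ) :
    ¬ ((2 : ℤ) ^ ((n / 2) * (n - n / 2)) ∣ 2 ^ m * χ) := by
  intro hdvd
  apply h
  refine Dvd.dvd.mul_left ?_ _
  refine dvd_trans ?_ hdvd
  rw [show (4 : ℤ) = 2 ^ 2 by norm_num, ← pow_mul]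
  apply pow_dvd_pow
  obtain ⟨b, hb⟩ : ∃ b, b = n - n / 2 := ⟨_, rfl⟩
  obtain ⟨a, ha⟩ : ∃ a, a = n / 2 := ⟨_, rfl⟩
  rw [← hb, ← ha]
  have h1 : 3 ≤ a := by omega
  have h2 : 4 ≤ b := by omega
  have h3 : n = a + b := by omega
  rw [h3]
  obtain ⟨c, rfl⟩ : ∃ c, a = c + 3 := ⟨a - 3, by omega⟩
  obtain ⟨d, rfl⟩ : ∃ d, b = d + 4 := ⟨b - 4, by omega⟩
  have h4 : 2 * (c + 3 + (d + 4) - 1) = 2 * c + 2 * d + 12 := by omega
  rw [h4]
  nlinarith [Nat.zero_le (c * d)]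

/-- **Special linear groups over rings containing a square root of `-1`.** -/
theorem four {R : Type} [CommRing R] {n : ℕ} (hn : 3 ≤ n) [CompactSpace M] [T2Space M]
    [ConnectedSpace M] (z : R) (hz : z * z = -1)
    (α : Matrix.SpecialLinearGroup (Fin n) R → (M ≃ₘ^∞⟮𝓘(ℝ, E), 𝓘(ℝ, E)⟯ M)) (hα : IsHom α)
    (h : Cond4 n (finrank ℝ E) (Pool.Agent.Helper381.eulerChar M)) :
    (∃ I : Ideal R, (2 : R) ∈ I ∧ (∀ c, c ∈ I ∨ c - 1 ∈ I) ∧
      ∀ c ∈ I, ∀ (i j : Fin n) (hij : i ≠ j) (x : M), α (el hij c) x = x) ∧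
    (α '' {g | g ∈ EE n R}).Finite ∧
    (7 ≤ n → ∀ g ∈ EE n R, ∀ x, α g x = x) := by
  obtain ⟨k, rfl⟩ : ∃ k, n = k + 1 := ⟨n - 1, by omega⟩
  have hk : 2 ≤ k := by omega
  have h' : ¬ ((4 : ℤ) ^ k ∣ (Nat.gcd (k + 1) 4 : ℤ) *
      (2 ^ finrank ℝ E * Pool.Agent.Helper381.eulerChar M)) := h
  have h2 := two_mem z hz hk hα.action h'
  have h1 := index_two hk hα.action h2 (fun h3 => h' (Dvd.dvd.mul_left h3 _))
  refine ⟨⟨idealOf (actKer hα.action) hn, h2, h1, fun c hc i j hij x => hc i j hij x⟩, ?_, ?_⟩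
  · have hfin := finite_EE hn (actKer hα.action) h2 h1
    let β : (Matrix.SpecialLinearGroup (Fin (k + 1)) R ⧸ actKer hα.action) →
      (M ≃ₘ^∞⟮𝓘(ℝ, E), 𝓘(ℝ, E)⟯ M) := fun p => α p.out
    refine (hfin.image β).subset ?_
    rintro _ ⟨g, hg, rfl⟩
    refine ⟨(g : _ ⧸ actKer hα.action), ⟨g, hg, rfl⟩, ?_⟩
    obtain ⟨u, hu⟩ := QuotientGroup.mk_out_eq_mul (actKer hα.action) g
    show α _ = α g
    rw [hu]
    ext x
    rw [hα]
    exact congrArg (α g) (u.2 x)
  · intro hk7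
    apply triv_of hα
    intro i j hij c x
    have h3 := one_mem hn (c := (k + 1) / 2) (by omega) (by omega) hα.action h2
      (cond4_block hk7 h)
    have h4 : c ∈ idealOf (actKer hα.action) hn := by
      have := Ideal.mul_mem_left _ c h3
      rwa [mul_one] at this
    exact h4 i j hij x

/-- **Special linear groups over rings containing roots of unity of order `4` or of odd prime order.**
Let `n ≥ 3`, `R` a commutative ring, `M` a closed connected manifold and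
`α : SL_n(R) → Diff(M)` a homomorphism.
(1) If `R` contains a square root of `-1` and `Cond4` holds, then `α(E_n(R))` is finite; more
precisely there is an ideal `I` of index at most `2` such that the elementary matrices with entries
in `I` act trivially; and `E_n(R)` acts trivially if `n ≥ 7`.
(2) If `R` contains a root of `1 + x + ... + x ^ (p - 1)`, `p` an odd prime, and `CondP` holds, then
`E_n(R)` acts trivially.
(3) `E_n(R) = SL_n(R)` if `R` is a euclidean domain, for instance `ℤ[i]` or `ℤ[e^{2πi/3}]`.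
(4) `Cond4` holds if `χ(M)` is odd and `dim M < 2 n - 2 - loss n`.
(5) `CondP` holds if `p` does not divide `χ(M)` and `dim M < 2 n - 2`, for `n` prime to `p`, and if
`p` does not divide `χ(M)` and `dim M < 2 n - 4`, for all `n`. -/
theorem result {n : ℕ} (hn : 3 ≤ n) [CompactSpace M] [T2Space M] [ConnectedSpace M] :
    (∀ (R : Type) [CommRing R] (α : Matrix.SpecialLinearGroup (Fin n) R →
        (M ≃ₘ^∞⟮𝓘(ℝ, E), 𝓘(ℝ, E)⟯ M)), IsHom α →
      (∀ z : R, z * z = -1 → Cond4 n (finrank ℝ E) (Pool.Agent.Helper381.eulerChar M) →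
        (∃ I : Ideal R, (2 : R) ∈ I ∧ (∀ c, c ∈ I ∨ c - 1 ∈ I) ∧
          ∀ c ∈ I, ∀ (i j : Fin n) (hij : i ≠ j) (x : M), α (el hij c) x = x) ∧
        (α '' {g | g ∈ EE n R}).Finite ∧
        (7 ≤ n → ∀ g ∈ EE n R, ∀ x, α g x = x)) ∧
      (∀ p : ℕ, p.Prime → p ≠ 2 → ∀ z : R, ∑ i ∈ Finset.range p, z ^ i = 0 →
        CondP p n (finrank ℝ E) (Pool.Agent.Helper381.eulerChar M) →
        ∀ g ∈ EE n R, ∀ x, α g x = x)) ∧
    (∀ (R : Type) [EuclideanDomain R], EE n R = ⊤) ∧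
    (Odd (Pool.Agent.Helper381.eulerChar M) → finrank ℝ E + loss n < 2 * n - 2 →
      Cond4 n (finrank ℝ E) (Pool.Agent.Helper381.eulerChar M)) ∧
    (∀ p : ℕ, p.Prime → ¬ (p : ℤ) ∣ Pool.Agent.Helper381.eulerChar M →
      finrank ℝ E + (if p ∣ n then 2 else 0) < 2 * n - 2 →
      CondP p n (finrank ℝ E) (Pool.Agent.Helper381.eulerChar M)) := by
  refine ⟨fun R _ α hα => ⟨fun z hz h => four hn z hz α hα h, fun p hp hp2 z hz h => ?_⟩,
    fun R _ => EE_eq_top, fun h1 h2 => cond4_of h1 h2, fun p hp h1 h2 => condP_of hp h1 h2⟩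
  obtain ⟨k, rfl⟩ : ∃ k, n = k + 1 := ⟨n - 1, by omega⟩
  exact triv_of hα (cyc_trivial hp hp2 z hz (by omega) hα.action h)

end Pool.Agent.Results.MP_d483fb_an.RootsOfUnity
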